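import Pool.Agent.H717.Z3.Main

/-!
# The universal upper bound for zero-sum `ZMod 3` Ramsey numbers

For every finite graph `G` on `n` vertices with `3 ∣ e(G)` the zero-sum Ramsey number
`R(G, ZMod 3)` is at most `n + 8`, with equality if and only if `G` is a triangle.
-/

set_option autoImplicit false
set_option linter.unusedSectionVars false

namespace Pool.Agent.Results.MP_2da030_co.UniversalUpperBound

open Finset Function

/-- `f`, a map from the edges of the complete graph on `Fin N` to `ZMod 3`, has a zero-sum copy of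
`G`: there is a subgraph `H` of the complete graph (not necessarily induced) isomorphic to `G`, the
sum of the values of `f` over the edges of `H` being zero. -/
def HasZeroSumCopy {V : Type*} (G : SimpleGraph V) {N : ℕ}
    (f : (⊤ : SimpleGraph (Fin N)).edgeSet → ZMod 3) : Prop :=
  ∃ H : (⊤ : SimpleGraph (Fin N)).Subgraph, Nonempty (G ≃g H.coe) ∧
    ∑ᶠ e : H.edgeSet, f ⟨e.1, H.edgeSet_subset e.2⟩ = 0

/-- the positive integers `R` such that for all `N ≥ R` every `ZMod 3`-colouring of the edges of the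
complete graph on `N` vertices has a zero-sum copy of `G`. -/
def ramseySet {V : Type*} (G : SimpleGraph V) : Set ℕ :=
  {R | 0 < R ∧ ∀ N : ℕ, R ≤ N → ∀ f : (⊤ : SimpleGraph (Fin N)).edgeSet → ZMod 3,
    HasZeroSumCopy G f}

/-- the zero-sum Ramsey number `R(G, ZMod 3)`, the least element of `ramseySet G`. -/
noncomputable def zeroSumRamsey {V : Type*} (G : SimpleGraph V) : ℕ := sInf (ramseySet G)

section bridge

open H717.Z3

variable {V : Type*} [Fintype V] [DecidableEq V] (G : SimpleGraph V) [DecidableRel G.Adj]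
variable {N : ℕ}

/-- the colouring as a symmetric function of two vertices. -/
def F (f : (⊤ : SimpleGraph (Fin N)).edgeSet → ZMod 3) (u v : Fin N) : ZMod 3 :=
  if h : u ≠ v then f ⟨s(u, v), by simpa using h⟩ else 0

theorem F_symm (f : (⊤ : SimpleGraph (Fin N)).edgeSet → ZMod 3) (u v : Fin N) :
    F f u v = F f v u := by
  unfold F
  by_cases h : u = v
  · subst h; rfl
  · rw [dif_pos h, dif_pos (Ne.symm h)]
    congr 1
    exact Subtype.ext Sym2.eq_swap

/-- a function on unordered pairs. -/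
def P (f : (⊤ : SimpleGraph (Fin N)).edgeSet → ZMod 3) (φ : V → Fin N) (e : Sym2 V) : ZMod 3 :=
  if h : e.map φ ∈ (⊤ : SimpleGraph (Fin N)).edgeSet then f ⟨e.map φ, h⟩ else 0

theorem P_mk (f : (⊤ : SimpleGraph (Fin N)).edgeSet → ZMod 3) (φ : V → Fin N) (x y : V) :
    P f φ s(x, y) = F f (φ x) (φ y) := by
  unfold P F
  by_cases h : φ x = φ y
  · rw [dif_neg (by simp [h]), dif_neg (by simp [h])]
  · rw [dif_pos (by simpa using h), dif_pos h]
    rfl

theorem T_eq (f : (⊤ : SimpleGraph (Fin N)).edgeSet → ZMod 3) (φ : V → Fin N) :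
    T (AG G) (F f) φ = 2 * ∑ e ∈ G.edgeFinset, P f φ e := by
  have h1 : T (AG G) (F f) φ =
      ∑ p ∈ (Finset.univ : Finset (V × V)).filter (fun p => G.Adj p.1 p.2), P f φ s(p.1, p.2) := by
    unfold T
    rw [← Finset.sum_product', Finset.sum_filter]
    refine Finset.sum_congr (by simp) fun p _ => ?_
    by_cases h : G.Adj p.1 p.2
    · rw [if_pos h, AG_one G h, one_mul, P_mk]
    · rw [if_neg h]; simp [AG, h]
  rw [h1, Finset.mul_sum]
  rw [← Finset.sum_fiberwise_of_maps_to (t := G.edgeFinset) (g := fun p : V × V => s(p.1, p.2))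
    (by
      intro p hp
      rw [Finset.mem_filter] at hp
      simpa using hp.2)]
  refine Finset.sum_congr rfl fun e he => ?_
  induction e with
  | _ a b =>
    have hab : G.Adj a b := by simpa using he
    have hset : ((Finset.univ : Finset (V × V)).filter (fun p => G.Adj p.1 p.2)).filter
        (fun p => s(p.1, p.2) = s(a, b)) = {(a, b), (b, a)} := by
      ext ⟨p, q⟩
      simp only [Finset.mem_filter, Finset.mem_univ, true_and, Sym2.eq_iff, Finset.mem_insert,
        Finset.mem_singleton, Prod.mk.injEq]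
      constructor
      · rintro ⟨-, h⟩; exact h
      · rintro (⟨rfl, rfl⟩ | ⟨rfl, rfl⟩)
        · exact ⟨hab, Or.inl ⟨rfl, rfl⟩⟩
        · exact ⟨hab.symm, Or.inr ⟨rfl, rfl⟩⟩
    rw [hset, Finset.sum_pair (by
      intro h
      rw [Prod.mk.injEq] at h
      exact hab.ne h.1)]
    simp only
    rw [Sym2.eq_swap (a := b) (b := a)]
    ring

/-- the weight of the copy given by an injective map. -/
theorem sum_copy (f : (⊤ : SimpleGraph (Fin N)).edgeSet → ZMod 3) (φ : V → Fin N)
    (hφ : Injective φ) (H : (⊤ : SimpleGraph (Fin N)).Subgraph)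
    (hH : ∀ a b, H.Adj a b ↔ ∃ x y, G.Adj x y ∧ φ x = a ∧ φ y = b) :
    ∑ᶠ e : H.edgeSet, f ⟨e.1, H.edgeSet_subset e.2⟩ = ∑ e ∈ G.edgeFinset, P f φ e := by
  classical
  have himg : H.edgeSet = Sym2.map φ '' G.edgeSet := by
    ext e
    induction e with
    | _ a b =>
      rw [SimpleGraph.Subgraph.mem_edgeSet, hH]
      constructor
      · rintro ⟨x, y, hxy, rfl, rfl⟩
        exact ⟨s(x, y), by simpa using hxy, by simp⟩
      · rintro ⟨e, he, hab⟩
        induction e with
        | _ x y =>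
          have hxy : G.Adj x y := by simpa using he
          rw [Sym2.map_mk, Sym2.eq_iff] at hab
          rcases hab with ⟨h1, h2⟩ | ⟨h1, h2⟩
          · exact ⟨x, y, hxy, h1, h2⟩
          · exact ⟨y, x, hxy.symm, h2, h1⟩
  have hmap : ∀ e : G.edgeSet, Sym2.map φ e.1 ∈ H.edgeSet := by
    intro e; rw [himg]; exact ⟨e.1, e.2, rfl⟩
  have hbij : Bijective (fun e : G.edgeSet => (⟨Sym2.map φ e.1, hmap e⟩ : H.edgeSet)) := by
    constructor
    · intro e e' h
      apply Subtype.ext
      exact Sym2.map.injective hφ (Subtype.ext_iff.mp h)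
    · rintro ⟨e, he⟩
      have he' := he
      rw [himg] at he'
      obtain ⟨e0, h0, rfl⟩ := he'
      exact ⟨⟨e0, h0⟩, rfl⟩
  rw [← finsum_comp _ hbij, finsum_eq_sum_of_fintype]
  rw [← Finset.sum_coe_sort G.edgeFinset (P f φ)]
  refine Fintype.sum_equiv (Equiv.subtypeEquivRight (by simp)) _ _ ?_
  intro e
  have : Sym2.map φ e.1 ∈ (⊤ : SimpleGraph (Fin N)).edgeSet := H.edgeSet_subset (hmap e)
  simp only [P, Equiv.subtypeEquivRight_apply_coe]
  rw [dif_pos this]

theorem copy_iff (f : (⊤ : SimpleGraph (Fin N)).edgeSet → ZMod 3) :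
    HasZeroSumCopy G f ↔ ∃ φ : V → Fin N, Injective φ ∧ T (AG G) (F f) φ = 0 := by
  classical
  constructor
  · rintro ⟨H, ⟨e⟩, h0⟩
    have hφ : Injective (fun x => (e x : Fin N)) := Subtype.val_injective.comp e.injective
    refine ⟨fun x => (e x : Fin N), hφ, ?_⟩
    rw [T_eq, ← sum_copy G f _ hφ H (by
      intro a b
      constructor
      · intro hab
        have ha : a ∈ H.verts := H.edge_vert hab
        have hb : b ∈ H.verts := H.edge_vert hab.symm
        refine ⟨e.symm ⟨a, ha⟩, e.symm ⟨b, hb⟩, ?_, by simp, by simp⟩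
        rw [← e.map_adj_iff]
        simpa using hab
      · rintro ⟨x, y, hxy, rfl, rfl⟩
        have := (e.map_adj_iff (v := x) (w := y)).mpr hxy
        simpa using this), h0, mul_zero]
  · rintro ⟨φ, hφ, h0⟩
    let H : (⊤ : SimpleGraph (Fin N)).Subgraph :=
      { verts := Set.range φ
        Adj := fun a b => ∃ x y, G.Adj x y ∧ φ x = a ∧ φ y = b
        adj_sub := by
          rintro a b ⟨x, y, hxy, rfl, rfl⟩
          rw [SimpleGraph.top_adj]
          exact hφ.ne hxy.ne
        edge_vert := by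
          rintro a b ⟨x, y, hxy, rfl, rfl⟩
          exact ⟨x, rfl⟩
        symm := ⟨by
          rintro a b ⟨x, y, hxy, rfl, rfl⟩
          exact ⟨y, x, hxy.symm, rfl, rfl⟩⟩ }
    have hs := sum_copy G f φ hφ H (fun a b => Iff.rfl)
    refine ⟨H, ⟨⟨Equiv.ofInjective φ hφ, ?_⟩⟩, ?_⟩
    · intro x y
      change (∃ x' y', G.Adj x' y' ∧ φ x' = φ x ∧ φ y' = φ y) ↔ G.Adj x y
      constructor
      · rintro ⟨x', y', h, h1, h2⟩
        rw [← hφ h1, ← hφ h2]; exact h
      · intro h; exact ⟨x, y, h, rfl, rfl⟩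
    · rw [hs]
      rw [T_eq] at h0
      have h3 := three_zero
      linear_combination 2 * h0 - (∑ e ∈ G.edgeFinset, P f φ e) * h3

theorem sum_AG (h : 3 ∣ Nat.card G.edgeSet) : ∑ x, ∑ y, AG G x y = 0 := by
  have h1 : ∀ x, ∑ y, AG G x y = (G.degree x : ZMod 3) := by
    intro x
    unfold AG
    rw [Finset.sum_boole, ← SimpleGraph.card_neighborFinset_eq_degree]
    congr 2
    ext y; simp
  simp only [h1]
  rw [← Nat.cast_sum, SimpleGraph.sum_degrees_eq_twice_card_edges]
  obtain ⟨k, hk⟩ := h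
  have h2 : G.edgeFinset.card = 3 * k := by
    rw [← hk, Nat.card_eq_fintype_card, SimpleGraph.edgeFinset_card]
  rw [h2]
  push_cast
  rw [three_zero]; ring

end bridge

open H717.Z3 in
theorem upper {V : Type*} [Fintype V] (G : SimpleGraph V) (h : 3 ∣ Nat.card G.edgeSet) (N : ℕ)
    (hN : Fintype.card V + 7 ≤ N) (hT : Nonempty (G ≃g (⊤ : SimpleGraph (Fin 3))) → 11 ≤ N)
    (f : (⊤ : SimpleGraph (Fin N)).edgeSet → ZMod 3) : HasZeroSumCopy G f := by
  classical
  rw [copy_iff]
  refine main_upper G (F f) (F_symm f) (sum_AG G h) (by simpa using hN) ?_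
  intro h3 hall
  rw [Fintype.card_fin]
  apply hT
  have e := Fintype.equivFinOfCardEq h3
  refine ⟨⟨e, ?_⟩⟩
  intro a b
  rw [SimpleGraph.top_adj]
  constructor
  · intro hab
    exact hall a b (fun h => hab (by rw [h]))
  · intro hab
    exact e.injective.ne hab.ne

open H717.Z3 in
theorem lower {V : Type*} [Fintype V] (G : SimpleGraph V)
    (e : G ≃g (⊤ : SimpleGraph (Fin 3))) :
    ∃ f : (⊤ : SimpleGraph (Fin 10)).edgeSet → ZMod 3, ¬ HasZeroSumCopy G f := by
  classical
  let c : Sym2 (Fin 10) → ZMod 3 := Sym2.lift ⟨col10, col10_symm⟩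
  refine ⟨fun x => c x.1, ?_⟩
  rw [copy_iff]
  rintro ⟨φ, hφ, h0⟩
  have hF : ∀ u v : Fin 10, u ≠ v →
      F (fun x : (⊤ : SimpleGraph (Fin 10)).edgeSet => c x.1) u v = col10 u v := by
    intro u v huv
    unfold F
    rw [dif_pos huv]
    rfl
  let ψ : Fin 3 → Fin 10 := fun i => φ (e.symm i)
  have hψ : Injective ψ := hφ.comp e.symm.injective
  have hT : T (AG G) (F (fun x : (⊤ : SimpleGraph (Fin 10)).edgeSet => c x.1)) φ =
      2 * (col10 (ψ 0) (ψ 1) + col10 (ψ 0) (ψ 2) + col10 (ψ 1) (ψ 2)) := by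
    unfold T
    have e1 : ∀ g : V → ZMod 3, ∑ x, g x = g (e.symm 0) + g (e.symm 1) + g (e.symm 2) := by
      intro g
      rw [← Equiv.sum_comp e.symm.toEquiv g, Fin.sum_univ_three]
      rfl
    have a1 : ∀ i j : Fin 3, i ≠ j → AG G (e.symm i) (e.symm j) = 1 := by
      intro i j hij
      apply AG_one
      rw [e.symm.map_adj_iff, SimpleGraph.top_adj]
      exact hij
    simp only [e1]
    rw [AG_diag, AG_diag, AG_diag, a1 0 1 (by decide), a1 0 2 (by decide), a1 1 0 (by decide),
      a1 1 2 (by decide), a1 2 0 (by decide), a1 2 1 (by decide)]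
    rw [hF _ _ (hψ.ne (by decide : (0 : Fin 3) ≠ 1)), hF _ _ (hψ.ne (by decide : (0 : Fin 3) ≠ 2)),
      hF _ _ (hψ.ne (by decide : (1 : Fin 3) ≠ 0)), hF _ _ (hψ.ne (by decide : (1 : Fin 3) ≠ 2)),
      hF _ _ (hψ.ne (by decide : (2 : Fin 3) ≠ 0)), hF _ _ (hψ.ne (by decide : (2 : Fin 3) ≠ 1))]
    change _ = 2 * (col10 (φ (e.symm 0)) (φ (e.symm 1)) + col10 (φ (e.symm 0)) (φ (e.symm 2)) +
      col10 (φ (e.symm 1)) (φ (e.symm 2)))
    rw [col10_symm (φ (e.symm 1)) (φ (e.symm 0)), col10_symm (φ (e.symm 2)) (φ (e.symm 0)),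
      col10_symm (φ (e.symm 2)) (φ (e.symm 1))]
    ring
  rw [hT] at h0
  have h1 := col10_tri (ψ 0) (ψ 1) (ψ 2) (hψ.ne (by decide)) (hψ.ne (by decide))
    (hψ.ne (by decide))
  rcases mul_eq_zero.mp h0 with h | h
  · exact absurd h (by decide)
  · exact h1 h

/-- For every finite graph `G` on `n` vertices whose number of edges is divisible by `3`, the
zero-sum Ramsey number exists, it is at most `n + 8`, and it equals `n + 8` if and only if `G` is
isomorphic to `K_3`. -/
theorem result {V : Type*} [Fintype V] (G : SimpleGraph V) (h : 3 ∣ Nat.card G.edgeSet) :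
    IsLeast (ramseySet G) (zeroSumRamsey G) ∧
    zeroSumRamsey G ≤ Fintype.card V + 8 ∧
    (zeroSumRamsey G = Fintype.card V + 8 ↔ Nonempty (G ≃g (⊤ : SimpleGraph (Fin 3)))) := by
  have card3 : Nonempty (G ≃g (⊤ : SimpleGraph (Fin 3))) → Fintype.card V = 3 := by
    rintro ⟨e⟩
    rw [Fintype.card_congr e.toEquiv, Fintype.card_fin]
  have h8 : Fintype.card V + 8 ∈ ramseySet G := by
    refine ⟨by omega, fun N hN f => ?_⟩
    exact upper G h N (by omega) (fun hT => by have := card3 hT; omega) f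
  have hne : (ramseySet G).Nonempty := ⟨_, h8⟩
  have hmem : zeroSumRamsey G ∈ ramseySet G := Nat.sInf_mem hne
  refine ⟨⟨hmem, fun R hR => Nat.sInf_le hR⟩, Nat.sInf_le h8, ?_⟩
  constructor
  · intro heq
    by_contra hT
    have h7 : Fintype.card V + 7 ∈ ramseySet G := by
      refine ⟨by omega, fun N hN f => ?_⟩
      exact upper G h N hN (fun hT' => absurd hT' hT) f
    have : zeroSumRamsey G ≤ Fintype.card V + 7 := Nat.sInf_le h7
    omega
  · intro hT
    have h3 := card3 hT
    have hle : zeroSumRamsey G ≤ Fintype.card V + 8 := Nat.sInf_le h8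
    refine le_antisymm hle ?_
    by_contra hlt
    obtain ⟨f, hf⟩ := lower G hT.some
    exact hf (hmem.2 10 (by omega) f)

end Pool.Agent.Results.MP_2da030_co.UniversalUpperBound
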